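import Pool.Agent.Q145.GP.Win

set_option autoImplicit false
set_option maxHeartbeats 4000000

/-!
# The Gumbel law for the largest gap, for random sequences of shifts

In Cramér's model the largest gap up to `x` has a limiting distribution: it is
`log² x` plus a Gumbel variable times `log x`, and the number of the gaps that are longer than
`log x (log x + c)` is Poisson with mean `exp (-c)` (suitably normalised).  We prove this second
order form for the true primes and almost all sequences of shifts: for a set `V` of `X` points of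
`[1, Y]`, `log X = o(log Y / log log Y)`, and a random sequence `a_1, a_2, ...` of shifts from
`[1, Y]`, the number of the `n ∈ V` without a prime among `n + a_1, ..., n + a_k` has
asymptotically the Poisson distribution with mean `X exp (-k / log Y)`.
-/

namespace Pool.Agent.Q145.GP.GLaw

open Finset

open scoped Classical

/-- The number of the `n ∈ V` for which none of `n + a_1, ..., n + a_k` is a prime. -/
noncomputable def missed (V : Finset ℕ) {k : ℕ} (a : Fin k → ℕ) : ℕ :=
  (V.filter (fun n => ∀ i, ¬ (n + a i).Prime)).card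

/-- The proportion of the sequences `a_1, ..., a_k` from `[1, Y]` with exactly `j` missed points. -/
noncomputable def prob (V : Finset ℕ) (Y k j : ℕ) : ℝ :=
  (((Fintype.piFinset (fun _ : Fin k => Icc 1 Y)).filter (fun a => missed V a = j)).card : ℝ) / (Y : ℝ) ^ k

open Pool.Agent.Q145.GP Pool.Agent.Q145.RA

theorem missed_eq (V : Finset ℕ) {k : ℕ} (a : Fin k → ℕ) : missed V a = surv (fun n a => (n + a).Prime) V a := by
  unfold missed surv
  exact card_filter_inst _ _ _ _

theorem prob_eq (V : Finset ℕ) (Y k j : ℕ) : prob V Y k j = freq (Icc 1 Y) V (fun n a => (n + a).Prime) k j := by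
  unfold prob freq seqs
  rw [Nat.card_Icc, Nat.add_sub_cancel]
  congr 2
  apply congrArg
  apply filter_congr
  intro s _
  rw [missed_eq]

theorem law (ε Λ : ℝ) (hε : 0 < ε) (hΛ : 0 < Λ) : ∃ (η : ℝ) (X₀ : ℕ), 0 < η ∧
    ∀ (V : Finset ℕ) (Y : ℕ), X₀ ≤ V.card → V ⊆ Icc 1 Y →
    Real.log V.card * Real.log (Real.log Y) ≤ η * Real.log Y →
    (∀ k : ℕ, |prob V Y k 0 - Real.exp (-(V.card * Real.exp (-(k / Real.log Y))))| ≤ ε) ∧
    (∀ k : ℕ, V.card * Real.exp (-(k / Real.log Y)) ≤ Λ → ∀ j : ℕ,
      |prob V Y k j - Real.exp (-(V.card * Real.exp (-(k / Real.log Y)))) *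
        (V.card * Real.exp (-(k / Real.log Y))) ^ j / j.factorial| ≤ ε) := by
  obtain ⟨m, hP, hG, hm3⟩ := ((poisson (α := ℕ) (β := ℕ) Λ ε hΛ hε).and ((gumbel (α := ℕ) (β := ℕ) ε hε).and
    (Filter.eventually_ge_atTop 3))).exists
  obtain ⟨C, Y₁, hC, h1⟩ := fine_window
  obtain ⟨C₂, hC₂, Y₂, h2⟩ := Pool.Agent.Q145.RC.shifts_bd 2 (by norm_num)
  obtain ⟨Y₃, h3⟩ := Filter.eventually_atTop.1 (growthW 1)
  refine ⟨1 / ((m + 1) * (C + C₂ + 1)), max (max m Y₁) (max Y₂ Y₃), by positivity, fun V Y hX hV hlog => ?_⟩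
  have hXm : m ≤ V.card := ((le_max_left _ _).trans (le_max_left _ _)).trans hX
  have hVY : V.card ≤ Y := by
    have := card_le_card hV
    rwa [Nat.card_Icc, Nat.add_sub_cancel] at this
  have hY₁ : Y₁ ≤ Y := (((le_max_right _ _).trans (le_max_left _ _)).trans hX).trans hVY
  have hY₂ : Y₂ ≤ Y := (((le_max_left _ _).trans (le_max_right _ _)).trans hX).trans hVY
  have hY₃ : Y₃ ≤ Y := (((le_max_right _ _).trans (le_max_right _ _)).trans hX).trans hVY
  obtain ⟨g1, g2, g3, g4, g5⟩ := h3 Y hY₃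
  set L := Real.log (Y : ℝ) with hL
  set l := Real.log L with hl
  have hL0 : 0 < L := by linarith
  have hl0 : 0 < l := by linarith
  have hY0 : (0 : ℝ) < Y := by exact_mod_cast (by omega : 0 < Y)
  have hS : (Icc 1 Y).Nonempty := ⟨1, mem_Icc.2 ⟨le_rfl, by omega⟩⟩
  have hcS : ((Icc 1 Y).card : ℝ) = Y := by rw [Nat.card_Icc, Nat.add_sub_cancel]
  have hD : Deg (1 / L) (C * (l / L)) (C₂ * (l / L)) (Icc 1 Y) V (fun n a => (n + a).Prime) := by
    refine ⟨fun n hn => ?_, fun n hn => ?_, fun P hP hc => ?_⟩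
    · obtain ⟨hn1, hn2⟩ := mem_Icc.1 (hV hn)
      refine le_trans (le_of_eq ?_) ((h1 Y hY₁ n hn1 hn2).1.trans (le_of_eq (congrArg Nat.cast (card_filter_inst _ _ _ _))))
      rw [hcS]
      ring
    · obtain ⟨hn1, hn2⟩ := mem_Icc.1 (hV hn)
      refine (le_of_eq (congrArg Nat.cast (card_filter_inst _ _ _ _))).trans ((h1 Y hY₁ n hn1 hn2).2.trans (le_of_eq ?_))
      rw [hcS]
      ring
    · have h4 := h2 Y hY₂ P hc (fun n hn => (mem_Icc.1 (hV (hP hn))).2)
      refine (le_of_eq (congrArg Nat.cast (card_filter_inst _ _ _ _))).trans (h4.trans (le_of_eq ?_))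
      rw [hcS, ← hL, ← hl, show (2 - 1 : ℕ) = 1 from rfl, pow_one]
      field_simp
  have hlX : 0 ≤ Real.log V.card := Real.log_natCast_nonneg _
  have hsum : Real.log V.card * (C * (l / L) + C₂ * (l / L) + 1 / L) ≤ 1 / ((m : ℝ) + 1) := by
    have e1 : C * (l / L) + C₂ * (l / L) + 1 / L ≤ (C + C₂ + 1) * (l / L) := by
      have : 1 / L ≤ l / L := div_le_div_of_nonneg_right g2 hL0.le
      linarith
    calc Real.log V.card * (C * (l / L) + C₂ * (l / L) + 1 / L) ≤ Real.log V.card * ((C + C₂ + 1) * (l / L)) :=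
          mul_le_mul_of_nonneg_left e1 hlX
      _ = (C + C₂ + 1) * ((Real.log V.card * l) / L) := by ring
      _ ≤ (C + C₂ + 1) * ((1 / ((m + 1) * (C + C₂ + 1)) * L) / L) := by
          apply mul_le_mul_of_nonneg_left _ (by positivity)
          exact div_le_div_of_nonneg_right hlog hL0.le
      _ = 1 / ((m : ℝ) + 1) := by
          field_simp
  have hk : ∀ k : ℕ, (k : ℝ) * (1 / L) = k / L := fun k => by ring
  constructor
  · intro k
    have h4 := hG (1 / L) (C * (l / L)) (C₂ * (l / L)) (Icc 1 Y) V (fun n a => (n + a).Prime) (by positivity)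
      (by positivity) (by positivity) hS hD hXm hsum k
    rw [prob_eq]
    rw [hk] at h4
    exact h4
  · intro k hlam j
    have h4 := hP (1 / L) (C * (l / L)) (C₂ * (l / L)) (Icc 1 Y) V (fun n a => (n + a).Prime) (by positivity)
      (by positivity) (by positivity) hS hD hXm hsum k (by rw [hk]; exact hlam) j
    rw [prob_eq]
    rw [hk] at h4
    exact h4

end Pool.Agent.Q145.GP.GLaw
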