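import Pool.Agent.Q145.GP.Law

set_option autoImplicit false
set_option maxHeartbeats 4000000

/-! # Poisson law for the number of the missed points, Gumbel law for the covering time -/

namespace Pool.Agent.Q145.GP

open Finset Filter
open Pool.Agent.Q145.RA (seqs card_seqs Reg kap surv card_filter_inst choose_moment)
open Pool.Agent.Q145.LD (card_append card_not_le)

open scoped Classical

variable {α β : Type}

theorem poi_nonneg (lam : ℝ) (h : 0 ≤ lam) (j : ℕ) : 0 ≤ poi lam j := by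
  unfold poi
  positivity

theorem poi_markov (lam : ℝ) (h : 0 ≤ lam) (j : ℕ) : poi lam j * j ≤ lam := by
  rcases Nat.eq_zero_or_pos j with hj | hj
  · rw [hj, Nat.cast_zero, mul_zero]
    exact h
  · obtain ⟨i, rfl⟩ : ∃ i, j = i + 1 := ⟨j - 1, by omega⟩
    have h1 : lam ^ i / i.factorial ≤ Real.exp lam := Real.pow_div_factorial_le_exp lam h i
    have hf : (0 : ℝ) < i.factorial := by exact_mod_cast Nat.factorial_pos i
    have h2 : poi lam (i + 1) * ((i + 1 : ℕ) : ℝ) = lam * (Real.exp (-lam) * (lam ^ i / i.factorial)) := by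
      unfold poi
      rw [Nat.factorial_succ]
      push_cast
      field_simp
      ring
    rw [h2]
    have h3 : Real.exp (-lam) * (lam ^ i / i.factorial) ≤ 1 := by
      calc Real.exp (-lam) * (lam ^ i / i.factorial) ≤ Real.exp (-lam) * Real.exp lam :=
            mul_le_mul_of_nonneg_left h1 (Real.exp_pos _).le
        _ = 1 := by rw [← Real.exp_add]; simp
    nlinarith

theorem poi_zero_ge (lam : ℝ) : 1 - lam ≤ poi lam 0 := by
  unfold poi
  have := Real.add_one_le_exp (-lam)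
  simp
  linarith

theorem poi_zero_le (lam : ℝ) (h : 0 ≤ lam) : poi lam 0 ≤ 1 := by
  unfold poi
  have : Real.exp (-lam) ≤ 1 := Real.exp_le_one_iff.2 (by linarith)
  simpa using this

/-- fixed count, main range -/
theorem pois_main (j : ℕ) (Λ ε : ℝ) (hΛ : 0 < Λ) (hε : 0 < ε) : ∀ᶠ m : ℕ in atTop,
    ∀ (δ η₁ η₂ : ℝ) (S : Finset β) (V : Finset α) (R : α → β → Prop), 0 < δ → 0 ≤ η₁ → 0 ≤ η₂ → S.Nonempty →
    Deg δ η₁ η₂ S V R → m ≤ V.card → Real.log V.card * (η₁ + η₂ + δ) ≤ 1 / ((m : ℝ) + 1) →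
    ∀ k : ℕ, k * δ ≤ 2 * Real.log V.card → V.card * Real.exp (-(k * δ)) ≤ Λ →
    |freq S V R k j - poi (V.card * Real.exp (-(k * δ))) j| ≤ ε := by
  obtain ⟨m₀, hm₀⟩ := pal_close Λ (ε / 2) hΛ (by positivity) j
  set C : ℝ := ∑ i ∈ range (2 * m₀ + 1), ((j + i).choose j : ℝ) with hC
  have hC0 : 0 < C := by
    rw [hC]
    apply sum_pos
    · intro i _
      exact_mod_cast Nat.choose_pos (by omega)
    · exact ⟨0, mem_range.2 (by omega)⟩
  have hev : ∀ᶠ m : ℕ in atTop, ∀ i ∈ range (2 * m₀ + 1),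
    ∀ (δ η₁ η₂ : ℝ) (S : Finset β) (V : Finset α) (R : α → β → Prop), 0 < δ → 0 ≤ η₁ → 0 ≤ η₂ → S.Nonempty →
    Deg δ η₁ η₂ S V R → m ≤ V.card → Real.log V.card * (η₁ + η₂ + δ) ≤ 1 / ((m : ℝ) + 1) →
    ∀ k : ℕ, k * δ ≤ 2 * Real.log V.card → V.card * Real.exp (-(k * δ)) ≤ Λ →
    |mom S V R k (j + i) - (V.card * Real.exp (-(k * δ))) ^ (j + i) / (j + i).factorial| ≤ ε / (2 * C) := by
    rw [eventually_all_finset]
    intro i _
    exact mom_close (j + i) Λ (ε / (2 * C)) hΛ (by positivity)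
  filter_upwards [hev] with m hm
  intro δ η₁ η₂ S V R hδ hη₁ hη₂ hS hD hmX hL k hk hlam
  set lam : ℝ := V.card * Real.exp (-(k * δ)) with hlamd
  have hlam0 : 0 ≤ lam := by positivity
  have h1 : ∀ M : ℕ, M ≤ 2 * m₀ + 1 →
      |∑ i ∈ range M, (-1 : ℝ) ^ i * ((j + i).choose j : ℝ) * mom S V R k (j + i) - pal lam j M| ≤ ε / 2 := by
    intro M hM
    unfold pal
    rw [← sum_sub_distrib]
    refine (abs_sum_le_sum_abs _ _).trans ?_
    have h2 : ∀ i ∈ range M, |(-1 : ℝ) ^ i * ((j + i).choose j : ℝ) * mom S V R k (j + i) -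
        (-1 : ℝ) ^ i * ((j + i).choose j : ℝ) * (lam ^ (j + i) / (j + i).factorial)| ≤
        ((j + i).choose j : ℝ) * (ε / (2 * C)) := by
      intro i hi
      have h3 := hm i (mem_range.2 (by have := mem_range.1 hi; omega)) δ η₁ η₂ S V R hδ hη₁ hη₂ hS hD hmX hL k hk hlam
      rw [← mul_sub, abs_mul, abs_mul, abs_pow, abs_neg, abs_one, one_pow, one_mul, Nat.abs_cast]
      exact mul_le_mul_of_nonneg_left h3 (Nat.cast_nonneg _)
    refine (sum_le_sum h2).trans ?_
    rw [← sum_mul]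
    have h3 : ∑ i ∈ range M, ((j + i).choose j : ℝ) ≤ C := by
      apply sum_le_sum_of_subset_of_nonneg
      · intro i hi
        exact mem_range.2 (by have := mem_range.1 hi; omega)
      · intro _ _ _
        exact Nat.cast_nonneg _
    calc (∑ i ∈ range M, ((j + i).choose j : ℝ)) * (ε / (2 * C)) ≤ C * (ε / (2 * C)) :=
          mul_le_mul_of_nonneg_right h3 (by positivity)
      _ = ε / 2 := by
          field_simp
  obtain ⟨f1, f2⟩ := freq_bounds S V R k j m₀
  have g1 := abs_le.1 (h1 (2 * m₀ + 1) le_rfl)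
  have g2 := abs_le.1 (h1 (2 * m₀) (by omega))
  have g3 := abs_le.1 (hm₀ (2 * m₀ + 1) (by omega) lam hlam0 hlam)
  have g4 := abs_le.1 (hm₀ (2 * m₀) (by omega) lam hlam0 hlam)
  rw [abs_le]
  constructor
  · linarith [g2.1, g4.1]
  · linarith [g1.2, g3.2]

/-- **The Poisson law**, uniform in the count. -/
theorem poisson (Λ ε : ℝ) (hΛ : 0 < Λ) (hε : 0 < ε) : ∀ᶠ m : ℕ in atTop,
    ∀ (δ η₁ η₂ : ℝ) (S : Finset β) (V : Finset α) (R : α → β → Prop), 0 < δ → 0 ≤ η₁ → 0 ≤ η₂ → S.Nonempty →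
    Deg δ η₁ η₂ S V R → m ≤ V.card → Real.log V.card * (η₁ + η₂ + δ) ≤ 1 / ((m : ℝ) + 1) →
    ∀ k : ℕ, V.card * Real.exp (-(k * δ)) ≤ Λ →
    ∀ j : ℕ, |freq S V R k j - poi (V.card * Real.exp (-(k * δ))) j| ≤ ε := by
  set J : ℕ := ⌈3 * Λ / ε⌉₊ + 1 with hJ
  have hJr : 3 * Λ / ε ≤ J := by
    rw [hJ]
    push_cast
    linarith [Nat.le_ceil (3 * Λ / ε)]
  have hev : ∀ᶠ m : ℕ in atTop, ∀ j ∈ range J,
    ∀ (δ η₁ η₂ : ℝ) (S : Finset β) (V : Finset α) (R : α → β → Prop), 0 < δ → 0 ≤ η₁ → 0 ≤ η₂ → S.Nonempty →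
    Deg δ η₁ η₂ S V R → m ≤ V.card → Real.log V.card * (η₁ + η₂ + δ) ≤ 1 / ((m : ℝ) + 1) →
    ∀ k : ℕ, k * δ ≤ 2 * Real.log V.card → V.card * Real.exp (-(k * δ)) ≤ Λ →
    |freq S V R k j - poi (V.card * Real.exp (-(k * δ))) j| ≤ ε := by
    rw [eventually_all_finset]
    intro j _
    exact pois_main j Λ ε hΛ hε
  have ht : Tendsto (fun X : ℕ => 2 * (X : ℝ) ^ (-(1 / 2 : ℝ))) atTop (nhds (2 * 0)) :=
    ((tendsto_rpow_neg_atTop (by norm_num)).comp tendsto_natCast_atTop_atTop).const_mul 2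
  rw [mul_zero] at ht
  obtain ⟨m₁, hm₁⟩ := eventually_atTop.1 (ht.eventually (gt_mem_nhds hε))
  filter_upwards [hev, eventually_ge_atTop (m₁ + 3), ev_small 4 1 one_pos,
    ev_small 1 (1 / 2) (by norm_num)] with m hm hm3 hm4 hm5
  intro δ η₁ η₂ S V R hδ hη₁ hη₂ hS hD hmX hL k hlam j
  set X : ℕ := V.card with hX
  have hX3 : 3 ≤ X := by omega
  have hXr : (3 : ℝ) ≤ X := by exact_mod_cast hX3
  have hX0 : (0 : ℝ) < X := by linarith
  have hL1 : 1 ≤ Real.log X := by
    rw [Real.le_log_iff_exp_le hX0]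
    exact (lt_trans Real.exp_one_lt_d9 (by norm_num)).le.trans hXr
  have hη₁4 : η₁ * Real.log X ≤ 1 / 4 := by
    have : Real.log X * η₁ ≤ Real.log X * (η₁ + η₂ + δ) := mul_le_mul_of_nonneg_left (by linarith) (by linarith)
    linarith
  have hη₁4' : η₁ ≤ 1 / 4 := by nlinarith
  set lam : ℝ := X * Real.exp (-(k * δ)) with hlamd
  have hlam0 : 0 ≤ lam := by positivity
  have hmean := mom_one δ η₁ η₂ S hS V R hD k
  rw [← hX] at hmean
  rcases le_or_gt ((k : ℝ) * δ) (2 * Real.log X) with hk | hk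
  · rcases Nat.lt_or_ge j J with hj | hj
    · exact hm j (mem_range.2 hj) δ η₁ η₂ S V R hδ hη₁ hη₂ hS hD hmX hL k hk hlam
    · -- large counts
      have hj0 : 0 < j := by omega
      have hjr : 3 * Λ / ε ≤ j := hJr.trans (by exact_mod_cast hj)
      have hj0r : (0 : ℝ) < j := by exact_mod_cast hj0
      have h1 : mom S V R k 1 ≤ 3 * Λ := by
        refine hmean.trans ?_
        have e1 : -((1 - η₁) * (k * δ)) = -(k * δ) + η₁ * (k * δ) := by ring
        rw [e1, Real.exp_add, ← mul_assoc]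
        have e2 : η₁ * (k * δ) ≤ 1 := by
          have : η₁ * (k * δ) ≤ η₁ * (2 * Real.log X) := mul_le_mul_of_nonneg_left hk hη₁
          linarith
        calc lam * Real.exp (η₁ * (k * δ)) ≤ Λ * 3 :=
              mul_le_mul hlam ((Real.exp_le_exp.2 e2).trans (lt_trans Real.exp_one_lt_d9 (by norm_num)).le)
                (Real.exp_pos _).le hΛ.le
          _ = 3 * Λ := by ring
      have h2 := freq_markov S hS V R k j
      have h3 := poi_markov lam hlam0 j
      have h4 : 3 * Λ ≤ ε * j := by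
        rw [div_le_iff₀ hε] at hjr
        linarith
      have h5 : freq S V R k j ≤ ε := by
        have : freq S V R k j * j ≤ ε * j := by linarith
        exact le_of_mul_le_mul_right this hj0r
      have h6 : poi lam j ≤ ε := by
        have : poi lam j * j ≤ ε * j := by linarith
        exact le_of_mul_le_mul_right this hj0r
      have h7 := freq_nonneg S V R k j
      have h8 := poi_nonneg lam hlam0 j
      rw [abs_le]
      constructor <;> linarith
  · -- many shifts
    have hxp : (X : ℝ) ^ (-(1 / 2 : ℝ)) = Real.exp (-(1 / 2) * Real.log X) := by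
      rw [Real.rpow_def_of_pos hX0, mul_comm]
    have hsm : 2 * (X : ℝ) ^ (-(1 / 2 : ℝ)) < ε := hm₁ X (by omega)
    have h1 : mom S V R k 1 ≤ (X : ℝ) ^ (-(1 / 2 : ℝ)) := by
      refine hmean.trans ?_
      rw [hxp]
      nth_rewrite 1 [← Real.exp_log hX0]
      rw [← Real.exp_add]
      apply Real.exp_le_exp.2
      have : (3 / 4 : ℝ) * (k * δ) ≤ (1 - η₁) * (k * δ) := mul_le_mul_of_nonneg_right (by linarith) (by positivity)
      linarith
    have h2 : lam ≤ (X : ℝ) ^ (-(1 / 2 : ℝ)) := by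
      rw [hxp, hlamd]
      nth_rewrite 1 [← Real.exp_log hX0]
      rw [← Real.exp_add]
      apply Real.exp_le_exp.2
      linarith
    have hpos : 0 < (X : ℝ) ^ (-(1 / 2 : ℝ)) := by positivity
    rcases Nat.eq_zero_or_pos j with hj | hj
    · rw [hj]
      have h3 := freq_zero_ge S hS V R k
      have h4 := freq_le_one S hS V R k 0
      have h5 := poi_zero_ge lam
      have h6 := poi_zero_le lam hlam0
      rw [abs_le]
      constructor <;> linarith
    · have hj1 : (1 : ℝ) ≤ j := by exact_mod_cast hj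
      have h3 := freq_markov S hS V R k j
      have h4 := poi_markov lam hlam0 j
      have h5 := freq_nonneg S V R k j
      have h6 := poi_nonneg lam hlam0 j
      rw [abs_le]
      constructor <;> nlinarith

/-- more steps, fewer missed points -/
theorem freq_mono (S : Finset β) (hS : S.Nonempty) (V : Finset α) (R : α → β → Prop) (k k' : ℕ) (h : k ≤ k') :
    freq S V R k 0 ≤ freq S V R k' 0 := by
  have hSr : (0 : ℝ) < S.card := by exact_mod_cast card_pos.2 hS
  obtain ⟨r, rfl⟩ : ∃ r, k' = k + r := ⟨k' - k, by omega⟩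
  unfold freq
  rw [div_le_div_iff₀ (by positivity) (by positivity), pow_add]
  have h1 : ((seqs S (k + r)).filter (fun s => surv R V s = 0)).card =
      ∑ s ∈ seqs S k, ((seqs S r).filter (fun t => surv R V (Fin.append s t) = 0)).card := by
    have := card_append S k r (fun s => surv R V s = 0)
    rw [card_filter_inst _ _ _ (fun _ => Classical.propDecidable _), this]
    apply sum_congr rfl
    intro s _
    rw [card_filter_inst]
  have h2 : ((seqs S k).filter (fun s => surv R V s = 0)).card * S.card ^ r ≤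
      ((seqs S (k + r)).filter (fun s => surv R V s = 0)).card := by
    rw [h1, ← smul_eq_mul, ← sum_const]
    refine (sum_le_sum (fun s hs => ?_)).trans (sum_le_sum_of_subset (filter_subset _ _))
    have h3 := (mem_filter.1 hs).2
    rw [filter_true_of_mem, card_seqs]
    intro t _
    unfold surv at h3 ⊢
    rw [card_eq_zero, filter_eq_empty_iff] at h3 ⊢
    intro n hn h4
    apply h3 hn
    intro i
    have := h4 (Fin.castAdd r i)
    rwa [Fin.append_left] at this
  have h3 : (((seqs S k).filter (fun s => surv R V s = 0)).card : ℝ) * (S.card : ℝ) ^ r ≤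
      ((seqs S (k + r)).filter (fun s => surv R V s = 0)).card := by
    exact_mod_cast h2
  calc (((seqs S k).filter (fun s => surv R V s = 0)).card : ℝ) * ((S.card : ℝ) ^ k * (S.card : ℝ) ^ r) =
        ((((seqs S k).filter (fun s => surv R V s = 0)).card : ℝ) * (S.card : ℝ) ^ r) * (S.card : ℝ) ^ k := by ring
    _ ≤ _ := mul_le_mul_of_nonneg_right h3 (by positivity)

/-- **The Gumbel law**, uniform in the number of the steps. -/
theorem gumbel (ε : ℝ) (hε : 0 < ε) : ∀ᶠ m : ℕ in atTop,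
    ∀ (δ η₁ η₂ : ℝ) (S : Finset β) (V : Finset α) (R : α → β → Prop), 0 < δ → 0 ≤ η₁ → 0 ≤ η₂ → S.Nonempty →
    Deg δ η₁ η₂ S V R → m ≤ V.card → Real.log V.card * (η₁ + η₂ + δ) ≤ 1 / ((m : ℝ) + 1) →
    ∀ k : ℕ, |freq S V R k 0 - Real.exp (-(V.card * Real.exp (-(k * δ))))| ≤ ε := by
  obtain ⟨Λ, hΛ1, hΛ⟩ : ∃ Λ : ℝ, 1 ≤ Λ ∧ Real.exp (-(Λ / 3)) ≤ ε / 2 := by
    refine ⟨max 1 (3 * Real.log (2 / ε)), le_max_left _ _, ?_⟩
    calc Real.exp (-(max 1 (3 * Real.log (2 / ε)) / 3)) ≤ Real.exp (-Real.log (2 / ε)) := by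
          apply Real.exp_le_exp.2
          have := le_max_right 1 (3 * Real.log (2 / ε))
          linarith
      _ = ε / 2 := by
          rw [Real.exp_neg, Real.exp_log (by positivity), inv_div]
  filter_upwards [poisson (α := α) (β := β) Λ (ε / 2) (by linarith) (by positivity), eventually_ge_atTop 3,
    ev_small 1 1 one_pos] with m hm hm3 hm4
  intro δ η₁ η₂ S V R hδ hη₁ hη₂ hS hD hmX hL k
  set X : ℕ := V.card with hX
  have hX3 : 3 ≤ X := by omega
  have hXr : (3 : ℝ) ≤ X := by exact_mod_cast hX3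
  have hX0 : (0 : ℝ) < X := by linarith
  have hL1 : 1 ≤ Real.log X := by
    rw [Real.le_log_iff_exp_le hX0]
    exact (lt_trans Real.exp_one_lt_d9 (by norm_num)).le.trans hXr
  have hδ1 : δ ≤ 1 := by
    have h1 : 1 * (η₁ + η₂ + δ) ≤ Real.log X * (η₁ + η₂ + δ) := mul_le_mul_of_nonneg_right hL1 (by positivity)
    linarith
  have hP : ∀ k : ℕ, X * Real.exp (-(k * δ)) ≤ Λ →
      |freq S V R k 0 - Real.exp (-(X * Real.exp (-(k * δ))))| ≤ ε / 2 := by
    intro k hk
    have h1 := hm δ η₁ η₂ S V R hδ hη₁ hη₂ hS hD hmX hL k hk 0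
    have h2 : poi (X * Real.exp (-(k * δ))) 0 = Real.exp (-(X * Real.exp (-(k * δ)))) := by
      unfold poi
      simp
    rwa [h2] at h1
  rcases le_or_gt (X * Real.exp (-(k * δ))) Λ with h | h
  · exact (hP k h).trans (by linarith)
  · -- few steps
    set k' : ℕ := ⌈Real.log (X / Λ) / δ⌉₊ with hk'
    have hXΛ : 0 < (X : ℝ) / Λ := by positivity
    have h1 : Real.log (X / Λ) ≤ k' * δ := by
      have := Nat.le_ceil (Real.log (X / Λ) / δ)
      rwa [div_le_iff₀ hδ] at this
    have hlt : (k : ℝ) * δ < Real.log (X / Λ) := by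
      rw [Real.lt_log_iff_exp_lt hXΛ, lt_div_iff₀ (by positivity)]
      have h3 : Real.exp (k * δ) * (X * Real.exp (-(k * δ))) = X := by
        rw [mul_left_comm, ← Real.exp_add]
        simp
      have h4 := mul_lt_mul_of_pos_left h (Real.exp_pos (k * δ))
      rw [h3] at h4
      exact h4
    have h2 : (k' : ℝ) * δ ≤ Real.log (X / Λ) + 1 := by
      have h3 : 0 ≤ Real.log (X / Λ) / δ := by
        apply div_nonneg _ hδ.le
        have : (0 : ℝ) ≤ k * δ := by positivity
        linarith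
      have h4 := Nat.ceil_lt_add_one h3
      have h5 : (k' : ℝ) * δ ≤ (Real.log (X / Λ) / δ + 1) * δ := mul_le_mul_of_nonneg_right h4.le hδ.le
      have h6 : (Real.log (X / Λ) / δ + 1) * δ = Real.log (X / Λ) + δ := by
        field_simp
      linarith
    have hkk : k ≤ k' := by
      have : (k : ℝ) * δ ≤ k' * δ := by linarith
      exact_mod_cast le_of_mul_le_mul_right this hδ
    have hl1 : X * Real.exp (-(k' * δ)) ≤ Λ := by
      calc X * Real.exp (-(k' * δ)) ≤ X * Real.exp (-Real.log (X / Λ)) :=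
            mul_le_mul_of_nonneg_left (Real.exp_le_exp.2 (by linarith)) hX0.le
        _ = Λ := by
            rw [Real.exp_neg, Real.exp_log hXΛ]
            field_simp
    have hl2 : Λ / 3 ≤ X * Real.exp (-(k' * δ)) := by
      have h3 : X * Real.exp (-(Real.log (X / Λ) + 1)) ≤ X * Real.exp (-(k' * δ)) :=
        mul_le_mul_of_nonneg_left (Real.exp_le_exp.2 (by linarith)) hX0.le
      refine le_trans ?_ h3
      have h4 : X * Real.exp (-(Real.log (X / Λ) + 1)) = Λ * Real.exp (-1) := by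
        rw [neg_add, Real.exp_add, Real.exp_neg, Real.exp_log hXΛ]
        field_simp
      rw [h4, Real.exp_neg, div_eq_mul_inv]
      apply mul_le_mul_of_nonneg_left _ (by linarith)
      apply inv_anti₀ (Real.exp_pos _)
      exact (lt_trans Real.exp_one_lt_d9 (by norm_num)).le
    have h3 := freq_mono S hS V R k k' hkk
    have h4 := (abs_le.1 (hP k' hl1)).2
    have h5 : Real.exp (-(X * Real.exp (-(k' * δ)))) ≤ ε / 2 := (Real.exp_le_exp.2 (by linarith)).trans hΛ
    have h6 : Real.exp (-(X * Real.exp (-(k * δ)))) ≤ ε / 2 := (Real.exp_le_exp.2 (by linarith)).trans hΛ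
    have h7 := freq_nonneg S V R k 0
    have h8 := Real.exp_pos (-(X * Real.exp (-(k * δ))))
    rw [abs_le]
    constructor <;> linarith

end Pool.Agent.Q145.GP
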