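import Pool.Agent.Q145.GP.Mom

set_option autoImplicit false
set_option maxHeartbeats 4000000

/-! # Inequalities of Bonferroni for exact counts; partial sums for the Poisson distribution -/

namespace Pool.Agent.Q145.GP

open Finset Filter
open Pool.Agent.Q145.RA (seqs card_seqs Reg kap surv card_filter_inst choose_moment)

open scoped Classical

variable {α β : Type}

/-- partial alternating sums -/
noncomputable def alt (N j m : ℕ) : ℝ := ∑ i ∈ range m, (-1 : ℝ) ^ i * ((j + i).choose j : ℝ) * (N.choose (j + i) : ℝ)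

theorem alt_eq (N j m : ℕ) : alt N j m = (N.choose j : ℝ) * ∑ i ∈ range m, (-1 : ℝ) ^ i * ((N - j).choose i : ℝ) := by
  unfold alt
  rw [mul_sum]
  apply sum_congr rfl
  intro i _
  have h1 : N.choose (j + i) * (j + i).choose j = N.choose j * (N - j).choose (j + i - j) :=
    Nat.choose_mul (by omega)
  rw [Nat.add_sub_cancel_left] at h1
  have h2 : (N.choose (j + i) : ℝ) * ((j + i).choose j : ℝ) = (N.choose j : ℝ) * ((N - j).choose i : ℝ) := by
    exact_mod_cast h1
  calc (-1 : ℝ) ^ i * ((j + i).choose j : ℝ) * (N.choose (j + i) : ℝ) =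
        (-1 : ℝ) ^ i * ((N.choose (j + i) : ℝ) * ((j + i).choose j : ℝ)) := by ring
    _ = _ := by
        rw [h2]
        ring

theorem alt_sum (n m : ℕ) : ∑ i ∈ range (m + 1), (-1 : ℝ) ^ i * ((n + 1).choose i : ℝ) = (-1 : ℝ) ^ m * (n.choose m : ℝ) := by
  have := Int.alternating_sum_range_choose_eq_choose (n := n) (m := m)
  exact_mod_cast this

/-- Bonferroni: odd numbers of terms give upper bounds, even numbers lower bounds -/
theorem alt_bounds (N j m : ℕ) : (if N = j then (1 : ℝ) else 0) ≤ alt N j (2 * m + 1) ∧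
    alt N j (2 * m) ≤ (if N = j then (1 : ℝ) else 0) := by
  rcases Nat.lt_trichotomy N j with h | h | h
  · have h0 : N.choose j = 0 := Nat.choose_eq_zero_of_lt h
    rw [if_neg h.ne, alt_eq, alt_eq, h0]
    simp
  · rw [if_pos h, alt_eq, alt_eq, h, Nat.choose_self, Nat.sub_self]
    have h1 : ∀ M : ℕ, ∑ i ∈ range (M + 1), (-1 : ℝ) ^ i * ((0 : ℕ).choose i : ℝ) = 1 := by
      intro M
      rw [sum_range_succ']
      have : ∑ i ∈ range M, (-1 : ℝ) ^ (i + 1) * ((0 : ℕ).choose (i + 1) : ℝ) = 0 := by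
        apply sum_eq_zero
        intro i _
        rw [Nat.choose_zero_succ]
        simp
      rw [this]
      simp
    constructor
    · rw [h1]
      simp
    · rcases Nat.eq_zero_or_pos m with hm | hm
      · rw [hm]
        simp
      · obtain ⟨m', hm'⟩ : ∃ m', 2 * m = m' + 1 := ⟨2 * m - 1, by omega⟩
        rw [hm', h1]
        simp
  · rw [if_neg h.ne', alt_eq, alt_eq]
    obtain ⟨n, hn⟩ : ∃ n, N - j = n + 1 := ⟨N - j - 1, by omega⟩
    rw [hn]
    constructor
    · rw [alt_sum]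
      have : (-1 : ℝ) ^ (2 * m) = 1 := by
        rw [pow_mul]
        norm_num
      rw [this]
      positivity
    · rcases Nat.eq_zero_or_pos m with hm | hm
      · rw [hm]
        simp
      · obtain ⟨m', hm'⟩ : ∃ m', m = m' + 1 := ⟨m - 1, by omega⟩
        have h2 : 2 * m = (2 * m' + 1) + 1 := by omega
        rw [h2, alt_sum]
        have : (-1 : ℝ) ^ (2 * m' + 1) = -1 := by
          rw [pow_succ, pow_mul]
          norm_num
        rw [this]
        have h3 : (0 : ℝ) ≤ (N.choose j : ℝ) * (n.choose (2 * m' + 1) : ℝ) := by positivity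
        linarith

/-- partial sums for the Poisson distribution -/
noncomputable def pal (lam : ℝ) (j m : ℕ) : ℝ :=
  ∑ i ∈ range m, (-1 : ℝ) ^ i * ((j + i).choose j : ℝ) * (lam ^ (j + i) / (j + i).factorial)

/-- the Poisson distribution -/
noncomputable def poi (lam : ℝ) (j : ℕ) : ℝ := Real.exp (-lam) * lam ^ j / j.factorial

theorem pal_eq (lam : ℝ) (j m : ℕ) : pal lam j m = lam ^ j / j.factorial * ∑ i ∈ range m, (-lam) ^ i / i.factorial := by
  unfold pal
  rw [mul_sum]
  apply sum_congr rfl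
  intro i _
  have h1 : ((j + i).choose j : ℝ) = (j + i).factorial / (j.factorial * i.factorial) := by
    rw [Nat.cast_add_choose ℝ]
  have h2 : ((j + i).factorial : ℝ) ≠ 0 := by exact_mod_cast (Nat.factorial_pos _).ne'
  have h3 : (j.factorial : ℝ) ≠ 0 := by exact_mod_cast (Nat.factorial_pos _).ne'
  have h4 : (i.factorial : ℝ) ≠ 0 := by exact_mod_cast (Nat.factorial_pos _).ne'
  have h5 : (-lam) ^ i = (-1 : ℝ) ^ i * lam ^ i := by
    rw [neg_pow]
  rw [h1, h5, pow_add]
  field_simp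

theorem tail_mono (a b : ℝ) (ha : 0 ≤ a) (hab : a ≤ b) (m : ℕ) :
    Real.exp a - ∑ i ∈ range m, a ^ i / i.factorial ≤ Real.exp b - ∑ i ∈ range m, b ^ i / i.factorial := by
  have h1 : ∀ x : ℝ, Real.exp x - ∑ i ∈ range m, x ^ i / i.factorial = ∑' i : ℕ, x ^ (i + m) / (i + m).factorial := by
    intro x
    have h2 := (Real.summable_pow_div_factorial x).sum_add_tsum_nat_add m
    have h3 : Real.exp x = ∑' n : ℕ, x ^ n / n.factorial := by
      rw [Real.exp_eq_exp_ℝ, NormedSpace.exp_eq_tsum_div]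
    rw [h3, ← h2]
    ring
  rw [h1, h1]
  refine Summable.tsum_le_tsum (fun i => ?_) ((summable_nat_add_iff m).2 (Real.summable_pow_div_factorial a))
    ((summable_nat_add_iff m).2 (Real.summable_pow_div_factorial b))
  apply div_le_div_of_nonneg_right _ (Nat.cast_nonneg _)
  exact pow_le_pow_left₀ ha hab _

theorem tail_small (b ε : ℝ) (hε : 0 < ε) : ∃ m₀ : ℕ, ∀ m ≥ m₀, Real.exp b - ∑ i ∈ range m, b ^ i / i.factorial ≤ ε := by
  have h2 : Tendsto (fun m : ℕ => ∑ i ∈ range m, b ^ i / i.factorial) atTop (nhds (Real.exp b)) := by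
    have h3 := (Real.summable_pow_div_factorial b).hasSum.tendsto_sum_nat
    have h4 : Real.exp b = ∑' n : ℕ, b ^ n / n.factorial := by
      rw [Real.exp_eq_exp_ℝ, NormedSpace.exp_eq_tsum_div]
    rw [h4]
    exact h3
  obtain ⟨m₀, h⟩ := eventually_atTop.1 (h2.eventually (lt_mem_nhds (show Real.exp b - ε < Real.exp b by linarith)))
  refine ⟨m₀, fun m hm => ?_⟩
  have := h m hm
  linarith

theorem exp_neg_sum (x : ℝ) (hx : 0 ≤ x) (m : ℕ) : |Real.exp (-x) - ∑ i ∈ range m, (-x) ^ i / i.factorial| ≤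
    Real.exp x - ∑ i ∈ range m, x ^ i / i.factorial := by
  have h1 := Complex.norm_exp_sub_sum_le_exp_norm_sub_sum ((-x : ℝ) : ℂ) m
  have h2 : Complex.exp ((-x : ℝ) : ℂ) - ∑ i ∈ range m, ((-x : ℝ) : ℂ) ^ i / (i.factorial : ℂ) =
      ((Real.exp (-x) - ∑ i ∈ range m, (-x) ^ i / i.factorial : ℝ) : ℂ) := by
    push_cast
    rfl
  rw [h2, Complex.norm_real, Complex.norm_real, Real.norm_eq_abs, Real.norm_eq_abs, abs_neg, abs_of_nonneg hx] at h1
  exact h1

/-- the partial sums converge uniformly -/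
theorem pal_close (Λ ε : ℝ) (hΛ : 0 < Λ) (hε : 0 < ε) (j : ℕ) : ∃ m₀ : ℕ, ∀ m ≥ m₀, ∀ lam : ℝ, 0 ≤ lam → lam ≤ Λ →
    |pal lam j m - poi lam j| ≤ ε := by
  have hf : (0 : ℝ) < j.factorial := by exact_mod_cast Nat.factorial_pos j
  obtain ⟨m₀, h⟩ := tail_small Λ (ε / (Λ ^ j / j.factorial)) (by positivity)
  refine ⟨m₀, fun m hm lam h0 h1 => ?_⟩
  have h2 : pal lam j m - poi lam j = lam ^ j / j.factorial *
      (∑ i ∈ range m, (-lam) ^ i / i.factorial - Real.exp (-lam)) := by
    rw [pal_eq]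
    unfold poi
    ring
  rw [h2, abs_mul, abs_of_nonneg (by positivity), abs_sub_comm]
  have h3 := (exp_neg_sum lam h0 m).trans ((tail_mono lam Λ h0 h1 m).trans (h m hm))
  have h4 : lam ^ j / j.factorial ≤ Λ ^ j / j.factorial :=
    div_le_div_of_nonneg_right (pow_le_pow_left₀ h0 h1 j) hf.le
  calc lam ^ j / j.factorial * |Real.exp (-lam) - ∑ i ∈ range m, (-lam) ^ i / i.factorial| ≤
        Λ ^ j / j.factorial * (ε / (Λ ^ j / j.factorial)) := mul_le_mul h4 h3 (abs_nonneg _) (by positivity)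
    _ = ε := by
        field_simp

/-- the frequency of exactly `j` missed points -/
noncomputable def freq (S : Finset β) (V : Finset α) (R : α → β → Prop) (k j : ℕ) : ℝ :=
  (((seqs S k).filter (fun s => surv R V s = j)).card : ℝ) / (S.card : ℝ) ^ k

theorem freq_bounds (S : Finset β) (V : Finset α) (R : α → β → Prop) (k j m : ℕ) :
    freq S V R k j ≤ ∑ i ∈ range (2 * m + 1), (-1 : ℝ) ^ i * ((j + i).choose j : ℝ) * mom S V R k (j + i) ∧
    ∑ i ∈ range (2 * m), (-1 : ℝ) ^ i * ((j + i).choose j : ℝ) * mom S V R k (j + i) ≤ freq S V R k j := by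
  have h1 : ∀ M : ℕ, ∑ i ∈ range M, (-1 : ℝ) ^ i * ((j + i).choose j : ℝ) * mom S V R k (j + i) =
      (∑ s ∈ seqs S k, alt (surv R V s) j M) / (S.card : ℝ) ^ k := by
    intro M
    unfold alt mom
    rw [sum_comm, sum_div]
    apply sum_congr rfl
    intro i _
    rw [← mul_sum]
    ring
  have h2 : freq S V R k j = (∑ s ∈ seqs S k, if surv R V s = j then (1 : ℝ) else 0) / (S.card : ℝ) ^ k := by
    unfold freq
    rw [card_filter]
    push_cast
    rfl
  have hS : (0 : ℝ) ≤ (S.card : ℝ) ^ k := pow_nonneg (Nat.cast_nonneg _) _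
  rw [h1, h1, h2]
  exact ⟨div_le_div_of_nonneg_right (sum_le_sum fun s _ => (alt_bounds _ _ _).1) hS,
    div_le_div_of_nonneg_right (sum_le_sum fun s _ => (alt_bounds _ _ _).2) hS⟩

end Pool.Agent.Q145.GP
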