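import Pool.Agent.Q145.GP.Bonf

set_option autoImplicit false
set_option maxHeartbeats 4000000

/-! # Poisson law for the number of the missed points, Gumbel law for the covering time -/

namespace Pool.Agent.Q145.GP

open Finset Filter
open Pool.Agent.Q145.RA (seqs card_seqs Reg kap surv card_filter_inst choose_moment)
open Pool.Agent.Q145.LD (card_append card_not_le)

open scoped Classical

variable {α β : Type}

/-- degrees of points and pairs -/
structure Deg (δ η₁ η₂ : ℝ) (S : Finset β) (V : Finset α) (R : α → β → Prop) : Prop where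
  lo : ∀ n ∈ V, (1 - η₁) * δ * S.card ≤ ((S.filter (fun a => R n a)).card : ℝ)
  hi : ∀ n ∈ V, ((S.filter (fun a => R n a)).card : ℝ) ≤ (1 + η₁) * δ * S.card
  two : ∀ P ⊆ V, P.card = 2 → ((S.filter (fun a => ∀ n ∈ P, R n a)).card : ℝ) ≤ η₂ * δ * S.card

theorem ev_small (c ε : ℝ) (hε : 0 < ε) : ∀ᶠ m : ℕ in atTop, c * (1 / ((m : ℝ) + 1)) ≤ ε := by
  have h1 := (tendsto_one_div_add_atTop_nhds_zero_nat (𝕜 := ℝ)).const_mul c
  rw [mul_zero] at h1
  exact (h1.eventually (gt_mem_nhds hε)).mono fun _ h => h.le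

theorem mom_close (r : ℕ) (Λ ε : ℝ) (hΛ : 0 < Λ) (hε : 0 < ε) : ∀ᶠ m : ℕ in atTop,
    ∀ (δ η₁ η₂ : ℝ) (S : Finset β) (V : Finset α) (R : α → β → Prop), 0 < δ → 0 ≤ η₁ → 0 ≤ η₂ → S.Nonempty →
    Deg δ η₁ η₂ S V R → m ≤ V.card → Real.log V.card * (η₁ + η₂ + δ) ≤ 1 / ((m : ℝ) + 1) →
    ∀ k : ℕ, k * δ ≤ 2 * Real.log V.card → V.card * Real.exp (-(k * δ)) ≤ Λ →
    |mom S V R k r - (V.card * Real.exp (-(k * δ))) ^ r / r.factorial| ≤ ε := by
  have hf : (0 : ℝ) < r.factorial := by exact_mod_cast Nat.factorial_pos r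
  set B : ℝ := Λ ^ r / r.factorial with hB
  have hB0 : 0 < B := by positivity
  filter_upwards [ev_small (B * (64 * r ^ 2 + 2 * r ^ 2)) ε hε, ev_small (32 * r ^ 2) 1 one_pos,
    ev_small (4 * r) 1 one_pos, eventually_ge_atTop (3 + r)] with m a1 a2 a3 a4
  intro δ η₁ η₂ S V R hδ hη₁ hη₂ hS hD hm hL k hk hlam
  set X : ℕ := V.card with hX
  have hX3 : 3 ≤ X := by omega
  have hrX : r ≤ X := by omega
  have hXr : (3 : ℝ) ≤ X := by exact_mod_cast hX3
  have hX0 : (0 : ℝ) < X := by linarith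
  have hL1 : 1 ≤ Real.log X := by
    rw [Real.le_log_iff_exp_le hX0]
    exact (lt_trans Real.exp_one_lt_d9 (by norm_num)).le.trans hXr
  set η : ℝ := 1 / ((m : ℝ) + 1) with hη
  have hη0 : 0 < η := by positivity
  have hη1 : η ≤ 1 := by
    rw [hη, div_le_iff₀ (by positivity)]
    have := Nat.cast_nonneg (α := ℝ) m
    linarith
  have hsum : η₁ + η₂ + δ ≤ η := by
    have : 1 * (η₁ + η₂ + δ) ≤ Real.log X * (η₁ + η₂ + δ) := mul_le_mul_of_nonneg_right hL1 (by positivity)
    linarith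
  have hrδ : r * (2 * δ) ≤ 1 / 2 := by
    have h1 : r * δ ≤ r * η := mul_le_mul_of_nonneg_left (by linarith) (Nat.cast_nonneg _)
    linarith
  obtain ⟨b1, b2⟩ := mom_bounds r δ η₁ η₂ η (Real.log X) hδ hη₁ (by linarith) hη₂ S hS V R hD.lo hD.hi hD.two k hk hL hrδ
  rw [← hX] at b1 b2
  set μ : ℝ := k * δ with hμ
  set T : ℝ := (X * Real.exp (-μ)) ^ r / r.factorial with hT
  have hT0 : 0 < T := by positivity
  have hTB : T ≤ B := div_le_div_of_nonneg_right (pow_le_pow_left₀ (by positivity) hlam r) hf.le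
  have hexp : Real.exp (-μ) ^ r = Real.exp (-(r * μ)) := by
    rw [← Real.exp_nat_mul]
    congr 1
    ring
  have hTe : T = (X : ℝ) ^ r / r.factorial * Real.exp (-(r * μ)) := by
    rw [hT, mul_pow, hexp]
    ring
  have q1 : ((X.choose r : ℕ) : ℝ) * Real.exp (-(r * μ)) ≤ T := by
    rw [hTe]
    exact mul_le_mul_of_nonneg_right (Nat.choose_le_pow_div r X) (Real.exp_pos _).le
  have q2 : T * (1 - r ^ 2 / X) ≤ ((X.choose r : ℕ) : ℝ) * Real.exp (-(r * μ)) := by
    rw [hTe]
    have h1 := Nat.pow_le_choose (α := ℝ) r X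
    have h2 : ((X + 1 - r : ℕ) : ℝ) = X + 1 - r := by
      rw [Nat.cast_sub (by omega)]
      push_cast
      ring
    rw [h2] at h1
    have h3 : (X : ℝ) ^ r * (1 - r ^ 2 / X) ≤ (X + 1 - r) ^ r := by
      have h4 : (X : ℝ) * (1 - r / X) ≤ X + 1 - r := by
        rw [mul_sub, mul_one, mul_div_cancel₀ _ hX0.ne']
        linarith
      have h5 : 0 ≤ 1 - (r : ℝ) / X := by
        rw [sub_nonneg, div_le_one hX0]
        exact_mod_cast hrX
      have h6 : 1 - (r : ℝ) ^ 2 / X ≤ (1 - r / X) ^ r := by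
        have h7 := one_add_mul_le_pow (show (-2 : ℝ) ≤ -(r / X) by linarith) r
        have h8 : 1 + (r : ℝ) * -(r / X) = 1 - (r : ℝ) ^ 2 / X := by ring
        rw [h8] at h7
        exact h7
      calc (X : ℝ) ^ r * (1 - r ^ 2 / X) ≤ (X : ℝ) ^ r * (1 - r / X) ^ r :=
            mul_le_mul_of_nonneg_left h6 (by positivity)
        _ = (X * (1 - r / X)) ^ r := by rw [mul_pow]
        _ ≤ _ := pow_le_pow_left₀ (by positivity) h4 r
    calc (X : ℝ) ^ r / r.factorial * Real.exp (-(r * μ)) * (1 - r ^ 2 / X) =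
          ((X : ℝ) ^ r * (1 - r ^ 2 / X)) / r.factorial * Real.exp (-(r * μ)) := by ring
      _ ≤ (X + 1 - r) ^ r / r.factorial * Real.exp (-(r * μ)) := by
          apply mul_le_mul_of_nonneg_right _ (Real.exp_pos _).le
          exact div_le_div_of_nonneg_right h3 hf.le
      _ ≤ _ := mul_le_mul_of_nonneg_right h1 (Real.exp_pos _).le
  set t : ℝ := 32 * r ^ 2 * η with ht
  have ht0 : 0 ≤ t := by positivity
  have ht1 : t ≤ 1 := a2
  have het : Real.exp t ≤ 1 + 2 * t := by
    have := Real.abs_exp_sub_one_sub_id_le (x := t) (by rw [abs_of_nonneg ht0]; exact ht1)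
    have h2 := (le_abs_self _).trans this
    nlinarith
  have hemt : 1 - t ≤ Real.exp (-t) := by
    have := Real.add_one_le_exp (-t)
    linarith
  have hrX2 : (r : ℝ) ^ 2 / X ≤ 2 * r ^ 2 * η := by
    rw [div_le_iff₀ hX0]
    have h1 : 1 ≤ 2 * η * X := by
      rw [hη]
      have h2 : (m : ℝ) ≤ X := by exact_mod_cast hm
      have h3 : (0 : ℝ) ≤ m := Nat.cast_nonneg _
      rw [mul_one_div, div_mul_eq_mul_div, le_div_iff₀ (by positivity)]
      linarith
    nlinarith [sq_nonneg (r : ℝ)]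
  have hfin : B * (64 * r ^ 2 + 2 * r ^ 2) * η ≤ ε := a1
  rw [abs_le]
  have htot : B * (2 * t + 2 * r ^ 2 * η) ≤ ε := by
    refine le_trans (le_of_eq ?_) hfin
    rw [ht]
    ring
  constructor
  · -- lower bound
    have h1 : T * (1 - r ^ 2 / X) * (1 - t) ≤ mom S V R k r := by
      rcases le_or_gt 0 (T * (1 - (r : ℝ) ^ 2 / X)) with h | h
      · calc T * (1 - r ^ 2 / X) * (1 - t) ≤ T * (1 - r ^ 2 / X) * Real.exp (-t) :=
              mul_le_mul_of_nonneg_left hemt h
          _ ≤ ((X.choose r : ℕ) : ℝ) * Real.exp (-(r * μ)) * Real.exp (-t) :=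
              mul_le_mul_of_nonneg_right q2 (Real.exp_pos _).le
          _ ≤ _ := b1
      · have h2 : 0 ≤ mom S V R k r := le_trans (by positivity) b1
        have h3 : T * (1 - (r : ℝ) ^ 2 / X) * (1 - t) ≤ 0 := mul_nonpos_of_nonpos_of_nonneg h.le (by linarith)
        linarith
    have h2 : T - B * (2 * t + 2 * r ^ 2 * η) ≤ T * (1 - r ^ 2 / X) * (1 - t) := by
      have h3 : T * (t + r ^ 2 / X) ≤ B * (2 * t + 2 * r ^ 2 * η) :=
        mul_le_mul hTB (by linarith) (by positivity) hB0.le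
      have h4 : 0 ≤ T * ((r : ℝ) ^ 2 / X * t) := by positivity
      nlinarith
    linarith
  · have h1 : mom S V R k r ≤ T * (1 + 2 * t) := by
      refine b2.trans ?_
      calc ((X.choose r : ℕ) : ℝ) * Real.exp (-(r * μ)) * Real.exp t ≤ T * Real.exp t :=
            mul_le_mul_of_nonneg_right q1 (Real.exp_pos _).le
        _ ≤ T * (1 + 2 * t) := mul_le_mul_of_nonneg_left het hT0.le
    have h3 : T * (2 * t) ≤ B * (2 * t + 2 * r ^ 2 * η) :=
      mul_le_mul hTB (by nlinarith [sq_nonneg (r : ℝ)]) (by positivity) hB0.le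
    linarith

/-- the mean -/
theorem mom_one (δ η₁ η₂ : ℝ) (S : Finset β) (hS : S.Nonempty) (V : Finset α) (R : α → β → Prop)
    (hD : Deg δ η₁ η₂ S V R) (k : ℕ) : mom S V R k 1 ≤ V.card * Real.exp (-((1 - η₁) * (k * δ))) := by
  have hSr : (0 : ℝ) < S.card := by exact_mod_cast card_pos.2 hS
  have hSk : (0 : ℝ) < (S.card : ℝ) ^ k := by positivity
  have hmom : mom S V R k 1 = (∑ H ∈ powersetCard 1 V, ((wd S R H : ℕ) : ℝ) ^ k) / (S.card : ℝ) ^ k := by
    unfold mom
    congr 1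
    exact_mod_cast binom_moment S V R k 1
  rw [hmom, div_le_iff₀ hSk]
  have h1 : ∀ H ∈ powersetCard 1 V, ((wd S R H : ℕ) : ℝ) ^ k ≤ Real.exp (-((1 - η₁) * (k * δ))) * (S.card : ℝ) ^ k := by
    intro H hH
    obtain ⟨hHV, hH1⟩ := mem_powersetCard.1 hH
    obtain ⟨_, b2⟩ := wd_bounds S R H δ η₁ η₂ (fun n hn => hD.lo n (hHV hn)) (fun n hn => hD.hi n (hHV hn))
      (fun P hP => hD.two P (hP.trans hHV))
    rw [hH1] at b2
    have h2 : (wd S R H : ℝ) ≤ Real.exp (-((1 - η₁) * δ)) * S.card := by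
      refine b2.trans ?_
      apply mul_le_mul_of_nonneg_right _ hSr.le
      have h3 := Real.add_one_le_exp (-((1 - η₁) * δ))
      have h4 : (Nat.choose 1 2 : ℕ) = 0 := rfl
      rw [h4]
      push_cast
      linarith
    calc ((wd S R H : ℕ) : ℝ) ^ k ≤ (Real.exp (-((1 - η₁) * δ)) * S.card) ^ k := pow_le_pow_left₀ (Nat.cast_nonneg _) h2 k
      _ = _ := by
          rw [mul_pow, ← Real.exp_nat_mul]
          congr 2
          ring
  refine (sum_le_sum h1).trans (le_of_eq ?_)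
  rw [sum_const, card_powersetCard, nsmul_eq_mul, Nat.choose_one_right]
  ring

theorem freq_markov (S : Finset β) (hS : S.Nonempty) (V : Finset α) (R : α → β → Prop) (k j : ℕ) :
    freq S V R k j * j ≤ mom S V R k 1 := by
  have hSr : (0 : ℝ) < S.card := by exact_mod_cast card_pos.2 hS
  have hSk : (0 : ℝ) < (S.card : ℝ) ^ k := by positivity
  unfold freq mom
  rw [div_mul_eq_mul_div]
  apply div_le_div_of_nonneg_right _ hSk.le
  rw [← nsmul_eq_mul, ← sum_const]
  refine (sum_le_sum (fun s hs => ?_)).trans (sum_le_sum_of_subset_of_nonneg (filter_subset _ _)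
    (fun _ _ _ => Nat.cast_nonneg _))
  rw [(mem_filter.1 hs).2, Nat.choose_one_right]

theorem freq_nonneg (S : Finset β) (V : Finset α) (R : α → β → Prop) (k j : ℕ) : 0 ≤ freq S V R k j := by
  unfold freq
  positivity

theorem freq_le_one (S : Finset β) (hS : S.Nonempty) (V : Finset α) (R : α → β → Prop) (k j : ℕ) :
    freq S V R k j ≤ 1 := by
  have hSr : (0 : ℝ) < S.card := by exact_mod_cast card_pos.2 hS
  have hSk : (0 : ℝ) < (S.card : ℝ) ^ k := by positivity
  unfold freq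
  rw [div_le_one hSk]
  exact card_not_le S k _

/-- if the mean is small there are no missed points -/
theorem freq_zero_ge (S : Finset β) (hS : S.Nonempty) (V : Finset α) (R : α → β → Prop) (k : ℕ) :
    1 - mom S V R k 1 ≤ freq S V R k 0 := by
  have hSr : (0 : ℝ) < S.card := by exact_mod_cast card_pos.2 hS
  have hSk : (0 : ℝ) < (S.card : ℝ) ^ k := by positivity
  have h1 := (freq_bounds S V R k 0 1).2
  have h2 : mom S V R k 0 = 1 := by
    unfold mom
    have : ∀ s ∈ seqs S k, ((surv R V s).choose 0 : ℝ) = 1 := fun s _ => by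
      rw [Nat.choose_zero_right, Nat.cast_one]
    rw [sum_congr rfl this, sum_const, card_seqs, nsmul_eq_mul, mul_one]
    push_cast
    exact div_self hSk.ne'
  rw [mul_one, sum_range_succ, sum_range_one] at h1
  simp only [zero_add, pow_zero, pow_one, Nat.choose_self, Nat.choose_zero_right, Nat.cast_one, mul_one, one_mul] at h1
  rw [h2] at h1
  linarith

end Pool.Agent.Q145.GP
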