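import Pool.Agent.Q145.TP.Law

set_option autoImplicit false
set_option maxHeartbeats 4000000

/-! # Binomial moments of the number of the missed points -/

namespace Pool.Agent.Q145.GP

open Finset Filter
open Pool.Agent.Q145.RA (seqs card_seqs Reg kap surv card_filter_inst choose_moment)
open Pool.Agent.Q145.LD (mem_seqs)

open scoped Classical

variable {α β : Type}

/-- the elements without relations to `H` -/
noncomputable def wd (S : Finset β) (R : α → β → Prop) (H : Finset α) : ℕ := (S.filter (fun a => ∀ n ∈ H, ¬ R n a)).card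

theorem wd_bounds (S : Finset β) (R : α → β → Prop) (H : Finset α) (δ η₁ η₂ : ℝ)
    (hlo : ∀ n ∈ H, (1 - η₁) * δ * S.card ≤ ((S.filter (fun a => R n a)).card : ℝ))
    (hhi : ∀ n ∈ H, ((S.filter (fun a => R n a)).card : ℝ) ≤ (1 + η₁) * δ * S.card)
    (h2 : ∀ P ⊆ H, P.card = 2 → ((S.filter (fun a => ∀ n ∈ P, R n a)).card : ℝ) ≤ η₂ * δ * S.card) :
    (1 - H.card * ((1 + η₁) * δ)) * S.card ≤ (wd S R H : ℝ) ∧
    (wd S R H : ℝ) ≤ (1 - H.card * ((1 - η₁) * δ) + (H.card.choose 2 : ℕ) * (η₂ * δ)) * S.card := by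
  set c : β → ℕ := fun a => (H.filter (fun n => R n a)).card with hc
  have hwd : (wd S R H : ℝ) = ∑ a ∈ S, if c a = 0 then (1 : ℝ) else 0 := by
    unfold wd
    rw [card_filter]
    push_cast
    apply sum_congr rfl
    intro a _
    have : (∀ n ∈ H, ¬ R n a) ↔ c a = 0 := by
      rw [hc]
      show _ ↔ (H.filter (fun n => R n a)).card = 0
      rw [card_eq_zero, filter_eq_empty_iff]
    by_cases h : c a = 0
    · rw [if_pos h, if_pos (this.2 h)]
    · rw [if_neg h, if_neg (fun h' => h (this.1 h'))]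
  have hsum : ∑ a ∈ S, (c a : ℝ) = ∑ n ∈ H, ((S.filter (fun a => R n a)).card : ℝ) := by
    have e1 : ∀ a ∈ S, (c a : ℝ) = ∑ n ∈ H, if R n a then (1 : ℝ) else 0 := by
      intro a _
      rw [hc]
      show (((H.filter (fun n => R n a)).card : ℕ) : ℝ) = _
      rw [card_filter]
      push_cast
      rfl
    rw [sum_congr rfl e1, sum_comm]
    apply sum_congr rfl
    intro n _
    rw [card_filter]
    push_cast
    rfl
  have hS : ∑ _a ∈ S, (1 : ℝ) = S.card := by
    rw [sum_const, nsmul_eq_mul, mul_one]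
  constructor
  · have h1 : ∑ a ∈ S, ((1 : ℝ) - c a) ≤ (wd S R H : ℝ) := by
      rw [hwd]
      apply sum_le_sum
      intro a _
      by_cases h : c a = 0
      · rw [if_pos h, h]
        simp
      · rw [if_neg h]
        have : (1 : ℝ) ≤ c a := by exact_mod_cast Nat.one_le_iff_ne_zero.2 h
        linarith
    rw [sum_sub_distrib, hS, hsum] at h1
    have h3 : ∑ n ∈ H, ((S.filter (fun a => R n a)).card : ℝ) ≤ H.card * ((1 + η₁) * δ * S.card) := by
      refine (sum_le_sum hhi).trans (le_of_eq ?_)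
      rw [sum_const, nsmul_eq_mul]
    linarith
  · have h1 : (wd S R H : ℝ) ≤ ∑ a ∈ S, ((1 : ℝ) - c a + ((c a).choose 2 : ℕ)) := by
      rw [hwd]
      apply sum_le_sum
      intro a _
      by_cases h : c a = 0
      · rw [if_pos h, h]
        simp
      · rw [if_neg h]
        have e1 : (((c a).choose 2 : ℕ) : ℝ) = (c a : ℝ) * (c a - 1) / 2 := Nat.cast_choose_two ℝ (c a)
        rw [e1]
        have e2 : 1 ≤ c a := Nat.one_le_iff_ne_zero.2 h
        rcases Nat.lt_or_ge (c a) 2 with h4 | h4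
        · have : c a = 1 := by omega
          rw [this]
          norm_num
        · have h5 : (2 : ℝ) ≤ c a := by exact_mod_cast h4
          nlinarith [mul_nonneg (sub_nonneg.2 h5) (show (0 : ℝ) ≤ (c a : ℝ) - 1 by linarith)]
    rw [sum_add_distrib, sum_sub_distrib, hS, hsum] at h1
    have h3 : H.card * ((1 - η₁) * δ * S.card) ≤ ∑ n ∈ H, ((S.filter (fun a => R n a)).card : ℝ) := by
      refine le_trans (le_of_eq ?_) (sum_le_sum hlo)
      rw [sum_const, nsmul_eq_mul]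
    have h4 := choose_moment S H R 2 (η₂ * δ * S.card) h2
    have h5 : ∑ a ∈ S, (((c a).choose 2 : ℕ) : ℝ) ≤ (H.card.choose 2 : ℕ) * (η₂ * δ * S.card) := h4
    linarith

/-- the missed points -/
noncomputable def missedSet (R : α → β → Prop) (V : Finset α) {k : ℕ} (s : Fin k → β) : Finset α :=
  V.filter (fun n => ∀ i, ¬ R n (s i))

theorem binom_moment (S : Finset β) (V : Finset α) (R : α → β → Prop) (k r : ℕ) :
    ∑ s ∈ seqs S k, (surv R V s).choose r = ∑ H ∈ powersetCard r V, wd S R H ^ k := by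
  have h1 : ∀ s ∈ seqs S k, (surv R V s).choose r = ∑ H ∈ powersetCard r V, if ∀ n ∈ H, ∀ i, ¬ R n (s i) then 1 else 0 := by
    intro s _
    unfold surv
    rw [← card_powersetCard, ← card_filter]
    apply congrArg
    ext H
    rw [mem_filter, mem_powersetCard, mem_powersetCard]
    constructor
    · rintro ⟨h2, h3⟩
      exact ⟨⟨h2.trans (filter_subset _ _), h3⟩, fun n hn => (mem_filter.1 (h2 hn)).2⟩
    · rintro ⟨⟨h2, h3⟩, h4⟩
      exact ⟨fun n hn => mem_filter.2 ⟨h2 hn, h4 n hn⟩, h3⟩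
  rw [sum_congr rfl h1, sum_comm]
  apply sum_congr rfl
  intro H _
  rw [← card_filter]
  unfold wd
  have h2 : (seqs S k).filter (fun s => ∀ n ∈ H, ∀ i, ¬ R n (s i)) =
      Fintype.piFinset (fun _ : Fin k => S.filter (fun a => ∀ n ∈ H, ¬ R n a)) := by
    ext s
    rw [mem_filter, mem_seqs, Fintype.mem_piFinset]
    constructor
    · rintro ⟨h3, h4⟩ i
      exact mem_filter.2 ⟨h3 i, fun n hn => h4 n hn i⟩
    · intro h3
      exact ⟨fun i => (mem_filter.1 (h3 i)).1, fun n hn i => (mem_filter.1 (h3 i)).2 n hn⟩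
  rw [h2, Fintype.card_piFinset_const]

/-- the mean of the binomial moment -/
noncomputable def mom (S : Finset β) (V : Finset α) (R : α → β → Prop) (k r : ℕ) : ℝ :=
  (∑ s ∈ seqs S k, ((surv R V s).choose r : ℝ)) / (S.card : ℝ) ^ k

theorem exp_one_sub (x : ℝ) (h0 : 0 ≤ x) (h1 : x ≤ 1 / 2) : Real.exp (-(x + 2 * x ^ 2)) ≤ 1 - x := by
  refine le_trans (Real.exp_le_exp.2 ?_) (Pool.Agent.Q145.TP.one_sub_ge x (by linarith))
  rw [neg_le_neg_iff, div_le_iff₀ (by linarith)]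
  nlinarith [mul_nonneg h0 (mul_nonneg h0 (show 0 ≤ 1 - 2 * x by linarith))]

/-- all moments, multiplicatively -/
theorem mom_bounds (r : ℕ) (δ η₁ η₂ η L : ℝ) (hδ : 0 < δ) (hη₁ : 0 ≤ η₁) (hη₁1 : η₁ ≤ 1) (hη₂ : 0 ≤ η₂)
    (S : Finset β) (hS : S.Nonempty) (V : Finset α) (R : α → β → Prop)
    (hlo : ∀ n ∈ V, (1 - η₁) * δ * S.card ≤ ((S.filter (fun a => R n a)).card : ℝ))
    (hhi : ∀ n ∈ V, ((S.filter (fun a => R n a)).card : ℝ) ≤ (1 + η₁) * δ * S.card)
    (h2 : ∀ P ⊆ V, P.card = 2 → ((S.filter (fun a => ∀ n ∈ P, R n a)).card : ℝ) ≤ η₂ * δ * S.card)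
    (k : ℕ) (hk : k * δ ≤ 2 * L) (hL : L * (η₁ + η₂ + δ) ≤ η) (hrδ : r * (2 * δ) ≤ 1 / 2) :
    (V.card.choose r : ℕ) * Real.exp (-(r * (k * δ))) * Real.exp (-(32 * r ^ 2 * η)) ≤ mom S V R k r ∧
    mom S V R k r ≤ (V.card.choose r : ℕ) * Real.exp (-(r * (k * δ))) * Real.exp (32 * r ^ 2 * η) := by
  have hSr : (0 : ℝ) < S.card := by exact_mod_cast card_pos.2 hS
  have hSk : (0 : ℝ) < (S.card : ℝ) ^ k := by positivity
  set μ : ℝ := k * δ with hμ
  have hμ0 : 0 ≤ μ := by positivity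
  have hL0 : 0 ≤ L := by linarith
  have hr0 : (0 : ℝ) ≤ r := Nat.cast_nonneg _
  have hr2 : (r : ℝ) ≤ (r : ℝ) ^ 2 := by
    rcases Nat.eq_zero_or_pos r with h | h
    · rw [h]
      simp
    · have : (1 : ℝ) ≤ r := by exact_mod_cast h
      nlinarith
  have hη0 : 0 ≤ η := le_trans (by positivity) hL
  have hE1 : μ * η₁ ≤ 2 * η := by
    have : μ * η₁ ≤ 2 * L * η₁ := mul_le_mul_of_nonneg_right hk hη₁
    nlinarith [mul_nonneg hL0 hη₂, mul_nonneg hL0 hδ.le]
  have hE2 : μ * η₂ ≤ 2 * η := by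
    have : μ * η₂ ≤ 2 * L * η₂ := mul_le_mul_of_nonneg_right hk hη₂
    nlinarith [mul_nonneg hL0 hη₁, mul_nonneg hL0 hδ.le]
  have hE3 : μ * δ ≤ 2 * η := by
    have : μ * δ ≤ 2 * L * δ := mul_le_mul_of_nonneg_right hk hδ.le
    nlinarith [mul_nonneg hL0 hη₁, mul_nonneg hL0 hη₂]
  have hone : ∀ H ∈ powersetCard r V,
      Real.exp (-(r * μ)) * Real.exp (-(32 * r ^ 2 * η)) * (S.card : ℝ) ^ k ≤ ((wd S R H : ℕ) : ℝ) ^ k ∧
      ((wd S R H : ℕ) : ℝ) ^ k ≤ Real.exp (-(r * μ)) * Real.exp (32 * r ^ 2 * η) * (S.card : ℝ) ^ k := by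
    intro H hH
    obtain ⟨hHV, hHr⟩ := mem_powersetCard.1 hH
    obtain ⟨b1, b2⟩ := wd_bounds S R H δ η₁ η₂ (fun n hn => hlo n (hHV hn)) (fun n hn => hhi n (hHV hn))
      (fun P hP => h2 P (hP.trans hHV))
    rw [hHr] at b1 b2
    constructor
    · set x : ℝ := r * ((1 + η₁) * δ) with hx
      have hx0 : 0 ≤ x := by positivity
      have hx1 : x ≤ 1 / 2 := by
        refine le_trans ?_ hrδ
        apply mul_le_mul_of_nonneg_left _ hr0
        nlinarith
      have h3 := exp_one_sub x hx0 hx1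
      have h4 : S.card * Real.exp (-(x + 2 * x ^ 2)) ≤ (wd S R H : ℝ) := by
        refine le_trans ?_ b1
        rw [mul_comm]
        exact mul_le_mul_of_nonneg_right h3 hSr.le
      refine le_trans ?_ (pow_le_pow_left₀ (by positivity) h4 k)
      rw [mul_pow, ← Real.exp_nat_mul, mul_comm ((S.card : ℝ) ^ k), ← Real.exp_add]
      apply mul_le_mul_of_nonneg_right _ hSk.le
      apply Real.exp_le_exp.2
      have e1 : (k : ℝ) * -(x + 2 * x ^ 2) = -(r * μ + r * (μ * η₁) + 2 * (r ^ 2 * (1 + η₁) ^ 2 * (μ * δ))) := by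
        rw [hx, hμ]
        ring
      rw [e1]
      have e2 : r * (μ * η₁) ≤ r ^ 2 * (2 * η) := mul_le_mul hr2 hE1 (by positivity) (by positivity)
      have e3 : r ^ 2 * (1 + η₁) ^ 2 * (μ * δ) ≤ r ^ 2 * 4 * (2 * η) := by
        apply mul_le_mul _ hE3 (by positivity) (by positivity)
        apply mul_le_mul_of_nonneg_left _ (by positivity)
        nlinarith
      have e4 : 0 ≤ (r : ℝ) ^ 2 * η := by positivity
      linarith
    · have h3 : (wd S R H : ℝ) ≤ S.card * Real.exp (-(r * ((1 - η₁) * δ)) + (r.choose 2 : ℕ) * (η₂ * δ)) := by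
        refine b2.trans ?_
        rw [mul_comm]
        apply mul_le_mul_of_nonneg_left _ hSr.le
        have := Real.add_one_le_exp (-(r * ((1 - η₁) * δ)) + (r.choose 2 : ℕ) * (η₂ * δ))
        linarith
      refine (pow_le_pow_left₀ (Nat.cast_nonneg _) h3 k).trans ?_
      rw [mul_pow, ← Real.exp_nat_mul, mul_comm ((S.card : ℝ) ^ k), ← Real.exp_add]
      apply mul_le_mul_of_nonneg_right _ hSk.le
      apply Real.exp_le_exp.2
      have e1 : (k : ℝ) * (-(r * ((1 - η₁) * δ)) + (r.choose 2 : ℕ) * (η₂ * δ)) =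
          -(r * μ) + r * (μ * η₁) + (r.choose 2 : ℕ) * (μ * η₂) := by
        rw [hμ]
        ring
      rw [e1]
      have e2 : r * (μ * η₁) ≤ r ^ 2 * (2 * η) := mul_le_mul hr2 hE1 (by positivity) (by positivity)
      have e3 : ((r.choose 2 : ℕ) : ℝ) ≤ r ^ 2 := by
        rw [Nat.cast_choose_two]
        nlinarith
      have e4 : ((r.choose 2 : ℕ) : ℝ) * (μ * η₂) ≤ r ^ 2 * (2 * η) :=
        mul_le_mul e3 hE2 (by positivity) (by positivity)
      have e5 : 0 ≤ (r : ℝ) ^ 2 * η := by positivity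
      linarith
  have hmom : mom S V R k r = (∑ H ∈ powersetCard r V, ((wd S R H : ℕ) : ℝ) ^ k) / (S.card : ℝ) ^ k := by
    unfold mom
    congr 1
    exact_mod_cast binom_moment S V R k r
  rw [hmom]
  constructor
  · rw [le_div_iff₀ hSk]
    refine le_trans (le_of_eq ?_) (sum_le_sum fun H hH => (hone H hH).1)
    rw [sum_const, card_powersetCard, nsmul_eq_mul]
    ring
  · rw [div_le_iff₀ hSk]
    refine (sum_le_sum fun H hH => (hone H hH).2).trans (le_of_eq ?_)
    rw [sum_const, card_powersetCard, nsmul_eq_mul]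
    ring

end Pool.Agent.Q145.GP
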