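import Pool.Agent.H442R2.EHI.PntErr
import Pool.Agent.Q145.GP.Law2
import Pool.Agent.Q145.RC.Trip

set_option autoImplicit false
set_option maxHeartbeats 4000000

/-! # Degrees of the shifts with a rate -/

namespace Pool.Agent.Q145.GP

open Finset Filter
open Pool.Agent.H442R2.EHI (lis)
open Pool.Agent.H442R2.EHI.PntErrAux (pc pc_succ lis_succ)

theorem count_eq (n Y : ℕ) : (((Icc 1 Y).filter (fun a => (n + a).Prime)).card : ℝ) = pc (n + Y) - pc n := by
  induction Y with
  | zero => simp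
  | succ Y ih =>
    have h1 : Icc 1 (Y + 1) = insert (Y + 1) (Icc 1 Y) := by
      ext i
      simp only [mem_Icc, mem_insert]
      omega
    rw [h1, filter_insert, ← add_assoc, pc_succ]
    split_ifs with h
    · rw [card_insert_of_notMem (by simp)]
      push_cast
      rw [ih]
      ring
    · rw [ih]
      ring

theorem lis_eq (n Y : ℕ) (hn : 1 ≤ n) : lis (n + Y) - lis n = ∑ m ∈ Ioc n (n + Y), 1 / Real.log m := by
  induction Y with
  | zero => simp
  | succ Y ih =>
    rw [← add_assoc, lis_succ (n + Y) (by omega)]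
    have h1 : Ioc n (n + Y + 1) = insert (n + Y + 1) (Ioc n (n + Y)) := by
      ext i
      simp only [mem_Ioc, mem_insert]
      omega
    rw [h1, sum_insert (by simp), ← ih]
    ring

theorem growthW (C : ℝ) : ∀ᶠ Y : ℕ in atTop, 3 ≤ Real.log Y ∧ 1 ≤ Real.log (Real.log Y) ∧
    4 * Real.log (Real.log Y) ≤ Real.log Y ∧ C * √(Y : ℝ) ≤ Y / Real.log Y ^ 2 ∧ 4 ≤ Y := by
  have hl : Tendsto (fun Y : ℕ => Real.log Y) atTop atTop :=
    Real.tendsto_log_atTop.comp tendsto_natCast_atTop_atTop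
  have hll : Tendsto (fun Y : ℕ => Real.log (Real.log Y)) atTop atTop := Real.tendsto_log_atTop.comp hl
  have a1 : ∀ᶠ X : ℕ in atTop, 4 * Real.log (Real.log X) ≤ Real.log X := by
    have h1 := (Real.isLittleO_log_id_atTop.bound (show (0 : ℝ) < 1 / 4 by positivity))
    filter_upwards [hl.eventually h1, hll.eventually_ge_atTop 0, hl.eventually_ge_atTop 0] with X h2 h3 h4
    rw [Real.norm_eq_abs, Real.norm_eq_abs, abs_of_nonneg h3, id, abs_of_nonneg h4] at h2
    linarith
  have a2 : ∀ᶠ X : ℕ in atTop, C * √(X : ℝ) ≤ X / Real.log X ^ 2 := by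
    have h1 : (fun x : ℝ => Real.log x ^ (2 : ℝ)) =o[atTop] (fun x : ℝ => x ^ (1 / 2 : ℝ)) :=
      isLittleO_log_rpow_rpow_atTop 2 (by norm_num)
    have h2 := (h1.bound (show (0 : ℝ) < 1 / (|C| + 1) by positivity))
    filter_upwards [(tendsto_natCast_atTop_atTop (R := ℝ)).eventually h2, hl.eventually_ge_atTop 1,
      eventually_ge_atTop 4] with X h3 h4 h5
    have hX : (0 : ℝ) < X := by exact_mod_cast (by omega : 0 < X)
    have hs : 0 < √(X : ℝ) := Real.sqrt_pos.2 hX
    have e1 : ‖Real.log (X : ℝ) ^ (2 : ℝ)‖ = Real.log X ^ 2 := by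
      rw [Real.rpow_two, Real.norm_eq_abs, abs_of_nonneg (by positivity)]
    have e2 : ‖(X : ℝ) ^ (1 / 2 : ℝ)‖ = √(X : ℝ) := by
      rw [← Real.sqrt_eq_rpow, Real.norm_eq_abs, abs_of_nonneg hs.le]
    rw [e1, e2] at h3
    rw [le_div_iff₀ (by positivity)]
    have h6 : (|C| + 1) * Real.log X ^ 2 ≤ √(X : ℝ) := by
      calc (|C| + 1) * Real.log X ^ 2 ≤ (|C| + 1) * (1 / (|C| + 1) * √(X : ℝ)) :=
            mul_le_mul_of_nonneg_left h3 (by positivity)
        _ = √(X : ℝ) := by field_simp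
    have h7 : √(X : ℝ) * √(X : ℝ) = X := Real.mul_self_sqrt hX.le
    have h8 : C * Real.log X ^ 2 ≤ (|C| + 1) * Real.log X ^ 2 :=
      mul_le_mul_of_nonneg_right ((le_abs_self C).trans (by linarith)) (by positivity)
    calc C * √(X : ℝ) * Real.log X ^ 2 = (C * Real.log X ^ 2) * √(X : ℝ) := by ring
      _ ≤ √(X : ℝ) * √(X : ℝ) := mul_le_mul_of_nonneg_right (h8.trans h6) hs.le
      _ = X := h7
  filter_upwards [hl.eventually_ge_atTop 3, hll.eventually_ge_atTop 1, a1, a2, eventually_ge_atTop 4] with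
    X h1 h2 h3 h4 h5
  exact ⟨h1, h2, h3, h4, h5⟩

theorem pc_err : ∃ C : ℝ, 0 < C ∧ ∀ Y n : ℕ, 1 ≤ n → n ≤ Y → 4 ≤ Y →
    |(pc (n + Y) - pc n) - (lis (n + Y) - lis n)| ≤ C * (Y / Real.log Y ^ 2) + 4 * √(Y : ℝ) := by
  obtain ⟨C, h⟩ := Pool.Agent.H442R2.EHI.pnt_err 2
  refine ⟨7 * |C| + 1, by positivity, fun Y n hn hnY hY => ?_⟩
  have hYr : (4 : ℝ) ≤ Y := by exact_mod_cast hY
  have hY0 : (0 : ℝ) < Y := by linarith
  have hl : 0 < Real.log Y := Real.log_pos (by linarith)
  have h1 : |pc (n + Y) - lis (n + Y)| ≤ 2 * |C| * (Y / Real.log Y ^ 2) := by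
    have h2 := h (n + Y) (by omega)
    have h3 : Real.log Y ≤ Real.log ((n + Y : ℕ) : ℝ) := Real.log_le_log hY0 (by push_cast; linarith [Nat.cast_nonneg (α := ℝ) n])
    refine h2.trans ?_
    have h4 : ((n + Y : ℕ) : ℝ) ≤ 2 * Y := by
      have : (n : ℝ) ≤ Y := by exact_mod_cast hnY
      push_cast
      linarith
    calc C * ((n + Y : ℕ) : ℝ) / Real.log ((n + Y : ℕ) : ℝ) ^ 2 ≤ |C| * (2 * Y) / Real.log Y ^ 2 := by
          apply div_le_div₀ (by positivity) _ (by positivity) (pow_le_pow_left₀ hl.le h3 2)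
          exact mul_le_mul (le_abs_self C) h4 (Nat.cast_nonneg _) (abs_nonneg _)
      _ = _ := by ring
  have h5 : |pc n - lis n| ≤ 4 * |C| * (Y / Real.log Y ^ 2) + 4 * √(Y : ℝ) := by
    have hsq : 0 < √(Y : ℝ) := Real.sqrt_pos.2 hY0
    rcases le_or_gt (n : ℝ) (√(Y : ℝ)) with hns | hns
    · -- small `n`
      have h6 : |pc n| ≤ n := by
        unfold pc
        rw [Nat.abs_cast]
        have := card_le_card (filter_subset (fun p : ℕ => p.Prime) (Icc 1 n))
        rw [Nat.card_Icc, Nat.add_sub_cancel] at this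
        exact_mod_cast this
      have h7 : |lis n| ≤ 3 * n := by
        unfold lis
        refine (abs_sum_le_sum_abs _ _).trans ?_
        calc ∑ i ∈ Icc 2 n, |1 / Real.log (i : ℝ)| ≤ ∑ i ∈ Icc 2 n, (3 : ℝ) := by
              apply sum_le_sum
              intro i hi
              have hi2 : 2 ≤ i := (mem_Icc.1 hi).1
              have h8 : Real.log 2 ≤ Real.log i := Real.log_le_log (by norm_num) (by exact_mod_cast hi2)
              have h9 : (0.6 : ℝ) ≤ Real.log 2 := by
                have := Real.log_two_gt_d9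
                linarith
              rw [abs_of_nonneg (by apply div_nonneg zero_le_one; linarith), div_le_iff₀ (by linarith)]
              linarith
          _ ≤ 3 * n := by
              rw [sum_const, nsmul_eq_mul, Nat.card_Icc]
              have : ((n + 1 - 2 : ℕ) : ℝ) ≤ n := by exact_mod_cast (by omega : n + 1 - 2 ≤ n)
              linarith
      have h8 : |pc n - lis n| ≤ n + 3 * n := (abs_sub _ _).trans (add_le_add h6 h7)
      have h9 : 0 ≤ 4 * |C| * (Y / Real.log Y ^ 2) := by positivity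
      linarith
    · have hn2 : 2 ≤ n := by
        have h6 : (2 : ℝ) ≤ √(Y : ℝ) := by
          rw [show (2 : ℝ) = √4 by
            rw [show (4 : ℝ) = 2 ^ 2 by norm_num, Real.sqrt_sq (by norm_num)]]
          exact Real.sqrt_le_sqrt hYr
        have h7 : (2 : ℝ) < n := by linarith
        exact_mod_cast h7.le
      have h2 := h n hn2
      have h3 : Real.log Y / 2 ≤ Real.log n := by
        rw [← Real.log_sqrt hY0.le]
        exact Real.log_le_log hsq hns.le
      refine h2.trans ?_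
      have h4 : (n : ℝ) ≤ Y := by exact_mod_cast hnY
      have h6 : C * (n : ℝ) / Real.log (n : ℝ) ^ 2 ≤ |C| * Y / (Real.log Y / 2) ^ 2 := by
        apply div_le_div₀ (by positivity) _ (by positivity) (pow_le_pow_left₀ (by positivity) h3 2)
        exact mul_le_mul (le_abs_self C) h4 (Nat.cast_nonneg _) (abs_nonneg _)
      have h7 : |C| * Y / (Real.log Y / 2) ^ 2 = 4 * |C| * (Y / Real.log Y ^ 2) := by
        field_simp
        ring
      rw [h7] at h6
      linarith
  have e1 : (pc (n + Y) - pc n) - (lis (n + Y) - lis n) = (pc (n + Y) - lis (n + Y)) - (pc n - lis n) := by ring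
  rw [e1]
  refine (abs_sub _ _).trans ?_
  have h9 : 0 ≤ |C| * (Y / Real.log Y ^ 2) := by positivity
  have h10 : 0 ≤ (Y : ℝ) / Real.log Y ^ 2 := by positivity
  linarith

/-- **Degrees with a rate.** -/
theorem fine_window : ∃ (C : ℝ) (Y₀ : ℕ), 0 < C ∧ ∀ Y : ℕ, Y₀ ≤ Y → ∀ n : ℕ, 1 ≤ n → n ≤ Y →
    (1 - C * (Real.log (Real.log Y) / Real.log Y)) * (Y / Real.log Y) ≤
      (((Icc 1 Y).filter (fun a => (n + a).Prime)).card : ℝ) ∧
    (((Icc 1 Y).filter (fun a => (n + a).Prime)).card : ℝ) ≤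
      (1 + C * (Real.log (Real.log Y) / Real.log Y)) * (Y / Real.log Y) := by
  obtain ⟨C₁, hC₁, h1⟩ := pc_err
  obtain ⟨Y₀, hY₀⟩ := eventually_atTop.1 (growthW 4)
  refine ⟨C₁ + 8, Y₀, by positivity, fun Y hY n hn hnY => ?_⟩
  obtain ⟨g1, g2, g3, g4, g5⟩ := hY₀ Y hY
  have hYr : (4 : ℝ) ≤ Y := by exact_mod_cast g5
  have hY0 : (0 : ℝ) < Y := by linarith
  set L := Real.log (Y : ℝ) with hL
  set l := Real.log L with hl
  have hL0 : 0 < L := by linarith
  rw [count_eq]
  have h2 := abs_le.1 (h1 Y n hn hnY g5)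
  rw [lis_eq n Y hn] at h2
  have hcard : ((Ioc n (n + Y)).card : ℝ) = Y := by
    rw [Nat.card_Ioc]
    push_cast [Nat.add_sub_cancel_left]
    rfl
  have hYL : 0 ≤ (Y : ℝ) / L ^ 2 := by positivity
  have hconv : (Y : ℝ) / L ^ 2 ≤ l / L * (Y / L) := by
    have : l / L * (Y / L) = l * (Y / L ^ 2) := by
      field_simp
    rw [this]
    nlinarith
  have hlow : (Y : ℝ) / L - Y / L ^ 2 ≤ ∑ m ∈ Ioc n (n + Y), 1 / Real.log (m : ℝ) := by
    have h3 : ∀ m ∈ Ioc n (n + Y), 1 / (L + 1) ≤ 1 / Real.log (m : ℝ) := by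
      intro m hm
      obtain ⟨hm1, hm2⟩ := mem_Ioc.1 hm
      have hm0 : (1 : ℝ) < m := by exact_mod_cast (by omega : 1 < m)
      have hlm : 0 < Real.log (m : ℝ) := Real.log_pos hm0
      apply one_div_le_one_div_of_le hlm
      calc Real.log (m : ℝ) ≤ Real.log (2 * Y) := by
            apply Real.log_le_log (by linarith)
            have : m ≤ 2 * Y := by omega
            exact_mod_cast this
        _ = Real.log 2 + L := Real.log_mul (by norm_num) hY0.ne'
        _ ≤ L + 1 := by
            have := Real.log_two_lt_d9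
            linarith
    have h4 : ∑ m ∈ Ioc n (n + Y), 1 / (L + 1) ≤ ∑ m ∈ Ioc n (n + Y), 1 / Real.log (m : ℝ) := sum_le_sum h3
    rw [sum_const, nsmul_eq_mul, hcard] at h4
    refine le_trans ?_ h4
    have h5 : (Y : ℝ) / L - Y / L ^ 2 = Y * ((L - 1) / L ^ 2) := by
      field_simp
    rw [h5]
    apply mul_le_mul_of_nonneg_left _ hY0.le
    rw [div_le_div_iff₀ (by positivity) (by positivity)]
    nlinarith
  have hupp : ∑ m ∈ Ioc n (n + Y), 1 / Real.log (m : ℝ) ≤ Y / L + 4 * (l / L * (Y / L)) + 2 * (Y / L ^ 2) := by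
    rw [← sum_filter_add_sum_filter_not (Ioc n (n + Y)) (fun m : ℕ => (m : ℝ) ≤ Y / L ^ 2)]
    have h3 : ∑ m ∈ (Ioc n (n + Y)).filter (fun m : ℕ => (m : ℝ) ≤ Y / L ^ 2), 1 / Real.log (m : ℝ) ≤
        2 * (Y / L ^ 2) := by
      calc _ ≤ ∑ m ∈ (Ioc n (n + Y)).filter (fun m : ℕ => (m : ℝ) ≤ Y / L ^ 2), (2 : ℝ) := by
            apply sum_le_sum
            intro m hm
            obtain ⟨hm1, hm2⟩ := mem_Ioc.1 (mem_filter.1 hm).1
            have hm0 : (2 : ℝ) ≤ m := by exact_mod_cast (by omega : 2 ≤ m)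
            have h8 : Real.log 2 ≤ Real.log m := Real.log_le_log (by norm_num) hm0
            have h9 := Real.log_two_gt_d9
            rw [div_le_iff₀ (by linarith)]
            linarith
        _ = 2 * (((Ioc n (n + Y)).filter (fun m : ℕ => (m : ℝ) ≤ Y / L ^ 2)).card : ℝ) := by
            rw [sum_const, nsmul_eq_mul, mul_comm]
        _ ≤ 2 * (Y / L ^ 2) := by
            apply mul_le_mul_of_nonneg_left _ (by norm_num)
            have h4 : (Ioc n (n + Y)).filter (fun m : ℕ => (m : ℝ) ≤ Y / L ^ 2) ⊆ Ioc 0 ⌊(Y : ℝ) / L ^ 2⌋₊ := by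
              intro m hm
              obtain ⟨h5, h6⟩ := mem_filter.1 hm
              rw [mem_Ioc] at h5 ⊢
              exact ⟨by omega, Nat.le_floor h6⟩
            have h5 := card_le_card h4
            rw [Nat.card_Ioc, Nat.sub_zero] at h5
            exact (Nat.cast_le.2 h5).trans (Nat.floor_le hYL)
    have h4 : ∑ m ∈ (Ioc n (n + Y)).filter (fun m : ℕ => ¬ (m : ℝ) ≤ Y / L ^ 2), 1 / Real.log (m : ℝ) ≤
        Y / L + 4 * (l / L * (Y / L)) := by
      have hLl : 0 < L - 2 * l := by linarith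
      calc _ ≤ ∑ m ∈ (Ioc n (n + Y)).filter (fun m : ℕ => ¬ (m : ℝ) ≤ Y / L ^ 2), 1 / (L - 2 * l) := by
            apply sum_le_sum
            intro m hm
            have hm2 := (mem_filter.1 hm).2
            rw [not_le] at hm2
            apply one_div_le_one_div_of_le hLl
            have h5 : Real.log (Y / L ^ 2) = L - 2 * l := by
              rw [Real.log_div hY0.ne' (by positivity), Real.log_pow, ← hL, ← hl]
              push_cast
              ring
            rw [← h5]
            exact Real.log_le_log (by positivity) hm2.le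
        _ ≤ ∑ m ∈ Ioc n (n + Y), 1 / (L - 2 * l) :=
            sum_le_sum_of_subset_of_nonneg (filter_subset _ _) (fun _ _ _ => by positivity)
        _ = Y * (1 / (L - 2 * l)) := by
            rw [sum_const, nsmul_eq_mul, hcard]
        _ ≤ Y * ((1 + 4 * (l / L)) / L) := by
            apply mul_le_mul_of_nonneg_left _ hY0.le
            rw [div_le_div_iff₀ hLl hL0]
            have h6 : l / L * L = l := div_mul_cancel₀ _ hL0.ne'
            have h7 : l / L ≤ 1 / 4 := by
              rw [div_le_iff₀ hL0]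
              linarith
            have h8 : (1 + 4 * (l / L)) * (L - 2 * l) = L + 2 * l - 8 * (l / L) * l := by
              have : (1 + 4 * (l / L)) * (L - 2 * l) = L - 2 * l + 4 * (l / L * L) - 8 * (l / L) * l := by ring
              rw [this, h6]
              ring
            rw [h8]
            nlinarith
        _ = _ := by ring
    linarith
  have hpos : 0 ≤ l / L * (Y / L) := by positivity
  constructor
  · have h3 : (1 - (C₁ + 8) * (l / L)) * (Y / L) = Y / L - (C₁ + 8) * (l / L * (Y / L)) := by ring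
    rw [h3]
    have h4 : C₁ * (Y / L ^ 2) ≤ C₁ * (l / L * (Y / L)) := mul_le_mul_of_nonneg_left hconv hC₁.le
    linarith [h2.1]
  · have h3 : (1 + (C₁ + 8) * (l / L)) * (Y / L) = Y / L + (C₁ + 8) * (l / L * (Y / L)) := by ring
    rw [h3]
    have h4 : C₁ * (Y / L ^ 2) ≤ C₁ * (l / L * (Y / L)) := mul_le_mul_of_nonneg_left hconv hC₁.le
    linarith [h2.2]

end Pool.Agent.Q145.GP
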